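import Pool.Agent.RS.StmtsF

set_option autoImplicit false

/-!
# The residue functional exists (FUN)
-/

namespace Pool.Agent.RS.H15.Fun

open Pool.Agent.RS Polynomial

variable {L : Type} [Field L]

/-- The inclusion of the polynomials in the rational functions. -/
noncomputable abbrev io' (L : Type) [Field L] : Polynomial L →+* RatFunc L :=
  algebraMap (Polynomial L) (RatFunc L)

theorem io'_inj : Function.Injective (io' L) := IsFractionRing.injective _ _

theorem io'_ne {p : Polynomial L} (h : p ≠ 0) : io' L p ≠ 0 := by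
  intro h0
  exact h (io'_inj (h0.trans (map_zero _).symm))

/-- `v` is a residue of `w`. -/
def Rel (Q : Polynomial L) (w : RatFunc L) (v : L) : Prop :=
  ∃ (a b f : Polynomial L) (s : ℕ), b ≠ 0 ∧ IsCoprime b Q ∧
    f.degree < ((s * Q.natDegree : ℕ) : WithBot ℕ) ∧
    w = io' L a / io' L b + io' L f / io' L Q ^ s ∧
    v = f.coeff (s * Q.natDegree - 1) / Q.leadingCoeff ^ s

theorem deg_pow (Q : Polynomial L) (hQ : Q ≠ 0) (s : ℕ) :
    (Q ^ s).degree = ((s * Q.natDegree : ℕ) : WithBot ℕ) := by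
  rw [degree_eq_natDegree (pow_ne_zero _ hQ), natDegree_pow]

theorem deg_mul_lt (Q : Polynomial L) (hQ : Q ≠ 0) (s s' : ℕ) (f : Polynomial L)
    (hf : f.degree < ((s * Q.natDegree : ℕ) : WithBot ℕ)) :
    (f * Q ^ s').degree < (((s + s') * Q.natDegree : ℕ) : WithBot ℕ) := by
  rw [degree_mul, deg_pow Q hQ, add_mul, Nat.cast_add]
  exact WithBot.add_lt_add_right (WithBot.coe_ne_bot) hf

theorem coeff_mul_pow (Q : Polynomial L) (hQ : 0 < Q.natDegree) (s s' : ℕ) (f : Polynomial L)
    (hf : f.degree < ((s * Q.natDegree : ℕ) : WithBot ℕ)) :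
    (f * Q ^ s').coeff ((s + s') * Q.natDegree - 1) =
      f.coeff (s * Q.natDegree - 1) * Q.leadingCoeff ^ s' := by
  rcases Nat.eq_zero_or_pos s with hs | hs
  · have h0 : f = 0 := by
      rw [hs, zero_mul, Nat.cast_zero] at hf
      by_contra h
      exact absurd (zero_le_degree_iff.2 h) (not_le.2 hf)
    rw [h0, zero_mul, coeff_zero, coeff_zero, zero_mul]
  · have hpos : 0 < s * Q.natDegree := Nat.mul_pos hs hQ
    have h1 : (s + s') * Q.natDegree - 1 = (s * Q.natDegree - 1) + s' * Q.natDegree := by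
      rw [add_mul]
      omega
    have h2 : f.natDegree ≤ s * Q.natDegree - 1 := by
      rcases eq_or_ne f 0 with h | h
      · rw [h, natDegree_zero]
        exact Nat.zero_le _
      · rw [degree_eq_natDegree h] at hf
        have := Nat.cast_lt.1 hf
        omega
    rw [h1, coeff_mul_add_eq_of_natDegree_le h2 (natDegree_pow_le), coeff_pow_mul_natDegree]

theorem rel_add (Q : Polynomial L) (hQ : 0 < Q.natDegree) {w w' : RatFunc L} {v v' : L}
    (h : Rel Q w v) (h' : Rel Q w' v') : Rel Q (w + w') (v + v') := by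
  obtain ⟨a, b, f, s, hb, hco, hf, rfl, rfl⟩ := h
  obtain ⟨a', b', f', s', hb', hco', hf', rfl, rfl⟩ := h'
  have hQ0 : Q ≠ 0 := by
    rintro rfl
    rw [natDegree_zero] at hQ
    exact lt_irrefl _ hQ
  have hlc : Q.leadingCoeff ≠ 0 := leadingCoeff_ne_zero.2 hQ0
  have hd' : (f' * Q ^ s).degree < (((s + s') * Q.natDegree : ℕ) : WithBot ℕ) := by
    rw [add_comm s s']
    exact deg_mul_lt Q hQ0 s' s f' hf'
  refine ⟨a * b' + a' * b, b * b', f * Q ^ s' + f' * Q ^ s, s + s', mul_ne_zero hb hb',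
    hco.mul_left hco', ?_, ?_, ?_⟩
  · exact lt_of_le_of_lt (degree_add_le _ _) (max_lt (deg_mul_lt Q hQ0 s s' f hf) hd')
  · have e1 := io'_ne hb
    have e2 := io'_ne hb'
    have e3 := io'_ne hQ0
    have e4 : io' L a / io' L b + io' L a' / io' L b' =
        io' L (a * b' + a' * b) / io' L (b * b') := by
      rw [div_add_div _ _ e1 e2, map_add, map_mul, map_mul, map_mul, mul_comm (io' L a') (io' L b)]
    have e5 : io' L f / io' L Q ^ s + io' L f' / io' L Q ^ s' =
        io' L (f * Q ^ s' + f' * Q ^ s) / io' L Q ^ (s + s') := by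
      rw [div_add_div _ _ (pow_ne_zero _ e3) (pow_ne_zero _ e3), map_add, map_mul, map_mul, map_pow,
        map_pow, pow_add, mul_comm (io' L f') (io' L Q ^ s)]
    rw [← e4, ← e5, add_add_add_comm]
  · rw [coeff_add, coeff_mul_pow Q hQ s s' f hf, add_comm s s', coeff_mul_pow Q hQ s' s f' hf',
      div_add_div _ _ (pow_ne_zero _ hlc) (pow_ne_zero _ hlc), pow_add,
      mul_comm (Q.leadingCoeff ^ s') (Q.leadingCoeff ^ s),
      mul_comm (f'.coeff _) (Q.leadingCoeff ^ s)]

theorem rel_smul (Q : Polynomial L) (c : L) {w : RatFunc L} {v : L}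
    (h : Rel Q w v) : Rel Q (c • w) (c • v) := by
  obtain ⟨a, b, f, s, hb, hco, hf, rfl, rfl⟩ := h
  have key : ∀ p : Polynomial L, io' L (Polynomial.C c * p) = c • io' L p := fun p => by
    rw [← smul_eq_C_mul, Algebra.smul_def c (io' L p), IsScalarTower.algebraMap_apply L (Polynomial L)
      (RatFunc L), ← map_mul, algebraMap_eq, smul_eq_C_mul]
  refine ⟨C c * a, b, C c * f, s, hb, hco, ?_, ?_, ?_⟩
  · rw [← smul_eq_C_mul]
    exact lt_of_le_of_lt (degree_smul_le c f) hf
  · rw [smul_add, key, key, smul_div_assoc, smul_div_assoc]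
  · rw [coeff_C_mul, smul_eq_mul, mul_div_assoc]

theorem rel_zero (Q : Polynomial L) (hQ : 0 < Q.natDegree) {v : L}
    (h : Rel Q 0 v) : v = 0 := by
  obtain ⟨a, b, f, s, hb, hco, hf, h0, rfl⟩ := h
  have hQ0 : Q ≠ 0 := by
    rintro rfl
    rw [natDegree_zero] at hQ
    exact lt_irrefl _ hQ
  have e1 := io'_ne hb
  have e3 := pow_ne_zero s (io'_ne hQ0)
  have h1 : io' L (a * Q ^ s + b * f) = io' L 0 := by
    rw [div_add_div _ _ e1 e3, eq_comm, div_eq_zero_iff] at h0
    rcases h0 with h0 | h0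
    · rw [map_add, map_mul, map_mul, map_pow, map_zero]
      exact h0
    · exact absurd h0 (mul_ne_zero e1 e3)
  have h2 := io'_inj h1
  have h3 : Q ^ s ∣ b * f := by
    refine ⟨-a, ?_⟩
    linear_combination h2
  have h4 : Q ^ s ∣ f := (hco.symm.pow_left).dvd_of_dvd_mul_left h3
  have h5 : f = 0 := eq_zero_of_dvd_of_degree_lt h4 (by rw [deg_pow Q hQ0]; exact hf)
  rw [h5, coeff_zero, zero_div]

theorem rel_unique (Q : Polynomial L) (hQ : 0 < Q.natDegree) {w : RatFunc L} {v v' : L}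
    (h : Rel Q w v) (h' : Rel Q w v') : v = v' := by
  have h1 := rel_add Q hQ h (rel_smul Q (-1) h')
  have h2 : w + (-1 : L) • w = 0 := by rw [neg_smul, one_smul, add_neg_cancel]
  rw [h2] at h1
  have h3 := rel_zero Q hQ h1
  rw [neg_smul, one_smul] at h3
  exact add_neg_eq_zero.1 h3

theorem rel_total (hpff : PffStmt) (Q : Polynomial L) (hQ : 0 < Q.natDegree) (w : RatFunc L) :
    ∃ v, Rel Q w v := by
  have hQ0 : Q ≠ 0 := by
    rintro rfl
    rw [natDegree_zero] at hQ
    exact lt_irrefl _ hQ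
  obtain ⟨n, d, hd, rfl⟩ := IsFractionRing.div_surjective (A := Polynomial L) w
  have hd0 : d ≠ 0 := nonZeroDivisors.ne_zero hd
  obtain ⟨M, u, c, c', hco, hu, h⟩ := hpff L Q d hQ0 hd0
  have hdiv := EuclideanDomain.div_add_mod (n * c') (Q ^ M)
  have hmod : ((n * c') % Q ^ M).degree < (Q ^ M).degree :=
    EuclideanDomain.mod_lt (n * c') (pow_ne_zero M hQ0)
  generalize (n * c') % Q ^ M = f at hdiv hmod
  generalize (n * c') / Q ^ M = g at hdiv
  refine ⟨_, n * c + g * u, u, f, M, hu, hco, ?_, ?_, rfl⟩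
  · rw [← deg_pow Q hQ0]
    exact hmod
  · have e1 := io'_ne hu
    have e2 := io'_ne hd0
    have e3 := pow_ne_zero M (io'_ne hQ0)
    have h1 : io' L u * io' L Q ^ M = io' L d * (io' L c * io' L Q ^ M + io' L c' * io' L u) := by
      rw [← map_pow, ← map_mul, ← map_mul, ← map_mul, ← map_add, ← map_mul, h]
    have h2 : io' L Q ^ M * io' L g + io' L f = io' L n * io' L c' := by
      rw [← map_pow, ← map_mul, ← map_add, hdiv, map_mul]
    rw [div_add_div _ _ e1 e3, div_eq_div_iff e2 (mul_ne_zero e1 e3), map_add, map_mul, map_mul]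
    linear_combination (io' L n) * h1 - (io' L d * io' L u) * h2

end Pool.Agent.RS.H15.Fun

namespace Pool.Agent.RS.H15

open Pool.Agent.RS Pool.Agent.RS.H15.Fun

theorem funx (hpff : PffStmt) : FunStmt := by
  intro L _ Q hQ
  have htot := rel_total hpff Q hQ
  choose Λ hΛ using htot
  let Φ : RatFunc L →ₗ[L] L :=
    { toFun := Λ
      map_add' := fun w w' => rel_unique Q hQ (hΛ (w + w')) (rel_add Q hQ (hΛ w) (hΛ w'))
      map_smul' := fun c w => rel_unique Q hQ (hΛ (c • w)) (rel_smul Q c (hΛ w)) }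
  refine ⟨Φ, fun a b hb hco => ?_, fun f s hf => ?_⟩
  · refine rel_unique Q hQ (hΛ _) ⟨a, b, 0, 0, hb, hco, ?_, ?_, ?_⟩
    · rw [Polynomial.degree_zero]
      exact WithBot.bot_lt_coe _
    · rw [map_zero, zero_div, add_zero]
    · rw [Polynomial.coeff_zero, zero_div]
  · refine rel_unique Q hQ (hΛ _) ⟨0, 1, f, s, one_ne_zero, isCoprime_one_left, hf, ?_, rfl⟩
    rw [map_zero, zero_div, zero_add]

end Pool.Agent.RS.H15
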