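import Pool.Agent.RS.StmtsT

/-!
# Squad RS, row GES: the ring of bounded germs is a polynomial ring
-/

set_option autoImplicit false

namespace Pool.Agent.RS.H15

open MvPolynomial Pool.Agent.RS

theorem ges (ess : EssStmt) (ggr : GgrStmt) (gde : GdeStmt) (gcz : GczStmt) (gdm : GdmStmt) :
    GesStmt := by
  intro E _ _
  haveI := gcz E
  haveI := (gdm E).2
  exact ess (KS E) (BG E) (ℕ → ℕ) (homo E) (dBG E) (ggr E) (gde E).1 (gde E).2

end Pool.Agent.RS.H15
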