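import Pool.Agent.RS.StmtsG

set_option autoImplicit false

/-!
# Logarithmic derivative of a product (LDE)
-/

namespace Pool.Agent.RS.H15

open Pool.Agent.RS MvPolynomial

theorem lde : LdeStmt := by
  intro E _ N j f hf
  suffices h : ∀ s : Finset (Fin N), io E (pderiv j (∏ v ∈ s, f v)) =
      io E (∏ v ∈ s, f v) * ∑ v ∈ s, io E (pderiv j (f v)) / io E (f v) from h Finset.univ
  intro s
  induction s using Finset.induction_on with
  | empty =>
    rw [Finset.prod_empty, Finset.sum_empty, mul_zero, Derivation.map_one_eq_zero, map_zero]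
  | insert a s ha ih =>
    have h1 : io E (f a) ≠ 0 := by
      intro h0
      exact hf a (io_injective (h0.trans (map_zero _).symm))
    rw [Finset.prod_insert ha, Finset.sum_insert ha, Derivation.leibniz, smul_eq_mul, smul_eq_mul,
      map_add, map_mul, map_mul, map_mul, ih, mul_add]
    have h2 : io E (f a) * io E (∏ v ∈ s, f v) * (io E (pderiv j (f a)) / io E (f a)) =
        io E (∏ v ∈ s, f v) * io E (pderiv j (f a)) := by
      rw [mul_comm (io E (f a)), mul_assoc, mul_div_cancel₀ _ h1]
    rw [h2, mul_assoc, add_comm]

end Pool.Agent.RS.H15
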